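import Pool.Agent.P.MP_81d17b_pr.LR.Scale

open Pool.Agent.P.MP_81d17b_pr.LR Real Filter

namespace Pool.Agent.Results.MP_81d17b_pr.LongRangeOrder

/-- Spin-glass long-range order at low temperature for the Ising spin glass on the `d`-dimensional
lattice with independent symmetric random signs and strengths decaying like `|x - y| ^ (-α)`,
`d / 2 < α < d`. -/
theorem result (d : ℕ) (hd : 1 ≤ d) (α c C δ : ℝ) (h1 : (d : ℝ) / 2 < α) (h2 : α < d)
    (hc : 0 < c) (hC : c ≤ C) (hδ : 0 < δ) :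
    ∃ β0 : ℝ, ∀ β : ℝ, β0 ≤ β → ∃ n0 : ℕ,
      ∀ a : (Fin d → ℤ) → (Fin d → ℤ) → ℝ, (∀ x y, a x y = a y x) →
        (∀ x y, x ≠ y → c * dist x y ^ (-α) ≤ a x y ∧ a x y ≤ C * dist x y ^ (-α)) →
        ∀ n : ℕ, n0 ≤ n → ∀ (z : Fin d → ℤ) (Λ : Finset (Fin d → ℤ)), cube z n ⊆ Λ →
          1 - δ ≤ order β a Λ (cube z n) := by
  have hd' : (1 : ℝ) ≤ d := by exact_mod_cast hd
  have hg : 0 < d - α := by linarith
  have hκ : 0 < α - d / 2 := by linarith
  have hC0 : 0 ≤ C := by linarith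
  obtain ⟨p, hp⟩ := exists_nat_gt (16 * α / (d - α))
  have hp0 : (0 : ℝ) < p := lt_trans (div_pos (by linarith) hg) hp
  have hp1 : 0 < p := by exact_mod_cast hp0
  have hp2 : 16 * α ≤ (d - α) * p := by
    rw [div_lt_iff₀ hg] at hp
    linarith
  set η := min 1 ((d - α) / 16) with hη
  have hη0 : 0 < η := lt_min one_pos (by linarith)
  have hη1 : η ≤ 1 := min_le_left _ _
  have hη2 : 16 * η ≤ d - α := by linarith [min_le_right 1 ((d - α) / 16)]
  set B := 24 / (c * δ) with hB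
  have hB0 : 0 < B := by positivity
  set y := (2 : ℝ) ^ (α - d / 2) with hy
  have hy1 : 1 < y := one_lt_rpow (by norm_num) hκ
  have hyk : ∀ k : ℕ, ((2 ^ k : ℕ) : ℝ) ^ (α - d / 2) = y ^ k := fun k => by
    rw [hy, ← rpow_natCast, ← rpow_mul (by norm_num), mul_comm, rpow_mul (by norm_num),
      rpow_natCast]
    push_cast
    rfl
  set K := 2 * d * p + 1 + 206 / η + (KL * (B * y * C) ^ 4 + 3) * p with hK
  have hK0 : 0 ≤ K := by
    have := KL_nonneg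
    positivity
  set ρ := ((1 + 1 / p : ℝ) ^ (1 / 14 : ℝ))⁻¹ with hρ
  have hρ0 : 0 ≤ ρ := by positivity
  have hρ1 : ρ < 1 := inv_lt_one_of_one_lt₀
    (one_lt_rpow (lt_add_of_pos_right _ (by positivity)) (by norm_num))
  have t1 : Tendsto (fun k : ℕ => (k : ℝ) ^ (1 / 14 : ℝ)) atTop atTop :=
    (tendsto_rpow_atTop (by norm_num)).comp tendsto_natCast_atTop_atTop
  have t2 : Tendsto (fun k : ℕ => c ^ 2 * (2 : ℝ) ^ ((d - α) * k / 2)) atTop atTop :=
    Tendsto.const_mul_atTop (by positivity) ((tendsto_rpow_atTop_of_base_gt_one 2 one_lt_two).comp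
      ((tendsto_natCast_atTop_atTop.const_mul_atTop hg).atTop_div_const two_pos))
  have t3 : Tendsto (fun k : ℕ => η * ((k : ℝ) ^ (1 / 14 : ℝ)) ^ 2) atTop atTop :=
    Tendsto.const_mul_atTop hη0 ((tendsto_pow_atTop two_ne_zero).comp t1)
  have t4 : Tendsto (fun k : ℕ => (6 + K / (1 - ρ)) * ((k : ℝ) ^ (1 / 14 : ℝ))⁻¹) atTop (nhds 0) := by
    simpa using t1.inv_tendsto_atTop.const_mul (6 + K / (1 - ρ))
  obtain ⟨k1, hk1⟩ := eventually_atTop.1 ((eventually_ge_atTop p).and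
    ((t2.eventually_ge_atTop 1).and ((t3.eventually_ge_atTop 1).and
      (t4.eventually (ge_mem_nhds (show 0 < δ / 4 by positivity))))))
  refine ⟨max 1 (B * y ^ k1), fun β hβ => ?_⟩
  have hβ1 : 1 ≤ β := (le_max_left _ _).trans hβ
  have hβ2 : y ^ k1 ≤ β / B := by
    rw [le_div_iff₀ hB0, mul_comm]
    exact (le_max_right _ _).trans hβ
  obtain ⟨k0, hk0, hk0'⟩ := exists_nat_pow_near ((one_le_pow₀ hy1.le).trans hβ2) hy1
  have hk01 : k1 ≤ k0 := Nat.lt_succ_iff.1 ((pow_lt_pow_iff_right₀ hy1).1 (hβ2.trans_lt hk0'))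
  refine ⟨2 ^ (k0 + 2 * (k0 / p)), fun a ha hb n hn z Λ hΛ => ?_⟩
  have hA : ∀ x y : Λ, x ≠ y → β * c * dist x.1 y.1 ^ (-α) ≤ cpl β a ha Λ s(x, y) := by
    intro x y hxy
    simp only [cpl, Sym2.lift_mk, if_neg hxy, mul_assoc]
    exact mul_le_mul_of_nonneg_left (hb _ _ fun h => hxy (Subtype.ext h)).1 (by linarith)
  have hA' : ∀ x y : Λ, x ≠ y → cpl β a ha Λ s(x, y) ≤ β * C * dist x.1 y.1 ^ (-α) := by
    intro x y hxy
    simp only [cpl, Sym2.lift_mk, if_neg hxy, mul_assoc]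
    exact mul_le_mul_of_nonneg_left (hb _ _ fun h => hxy (Subtype.ext h)).2 (by linarith)
  have key := chain
    (P := fun n q => ∀ z, cube z n ⊆ Λ → q ≤ E2 (cpl β a ha Λ) fun σ τ => |mB (cV Λ z n) σ τ|)
    (fun n q q' h hq z hz => hq.trans (h z hz)) (nx := fun k => k + 2 * (k / p)) (k0 := k0)
    (f := fun k => ((k : ℝ) ^ (1 / 14 : ℝ))⁻¹) hK0 hρ0 hρ1 (fun k => by positivity)
    (fun k hk => ?_) (fun k hk => ?_) (fun k hk n q hn1 hn2 hq => ?_)
    (scale_init hd h1 hc hB0 hA (hp1.trans_le (hk1 k0 hk01).1) ?_) n hn z hΛ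
  · rw [order_eq β a ha hΛ]
    have e1 : E2 (cpl β a ha Λ) (fun σ τ => 2 * |mB (cV Λ z n) σ τ| + -1) ≤
        E2 (cpl β a ha Λ) fun σ τ => mB (cV Λ z n) σ τ ^ 2 := E2_mono fun σ τ => by
      rw [← sq_abs]
      nlinarith [sq_nonneg (|mB (cV Λ z n) σ τ| - 1)]
    rw [E2_add, E2_mul, E2_const] at e1
    have e2 : 6 / (B * c) = δ / 4 := by
      rw [hB]
      field_simp
      norm_num
    have e3 := (hk1 k0 hk01).2.2.2
    rw [e2] at key
    linarith
  · have := (Nat.le_div_iff_mul_le hp1 (x := 1)).2 (by simpa using (hk1 k (hk01.trans hk)).1)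
    omega
  · have a1 := (hk1 k (hk01.trans hk)).1
    have a2 : (0 : ℝ) < k := by exact_mod_cast hp1.trans_le a1
    rw [hρ, ← mul_inv, ← mul_rpow (by positivity) a2.le, mul_comm _ (k : ℝ)]
    exact inv_anti₀ (by positivity) (rpow_le_rpow (by positivity) (nx_ge hp1 a1) (by norm_num))
  · obtain ⟨_, a2, a3, _⟩ := hk1 k (hk01.trans hk)
    refine scale_step hd h1 h2 hc hC0 hβ1 hA hA' hp1 hp2 hη0 hη1 hη2 a3 a2 ?_ hn1 hn2 hq
    rw [div_lt_iff₀ hB0] at hk0'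
    rw [hyk, mul_assoc, ← pow_succ', mul_comm]
    exact hk0'.le.trans (mul_le_mul_of_nonneg_right (pow_le_pow_right₀ hy1.le (by omega)) hB0.le)
  · rw [hyk, mul_comm]
    exact (le_div_iff₀ hB0).1 hk0

end Pool.Agent.Results.MP_81d17b_pr.LongRangeOrder
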