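import Pool.Agent.P.MP_81d17b_pr.NA.Main2

open Pool.Agent.P.MP_81d17b_pr.NA MeasureTheory ProbabilityTheory

namespace Pool.Agent.Results.MP_81d17b_pr.NonAmenable

/-- Non-uniqueness of Gibbs states at low temperature for the nearest-neighbour Edwards-Anderson
spin glass on a transitive graph `H` with a unimodular invariant spanning subgraph `F` of
edge-isoperimetric constant at least `h`, for independent couplings with invariant laws whose atoms
have mass at most `a` on the edges of `F`, when `a * degree F < h`. -/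
theorem result (V : Type) [Countable V] [DecidableEq V] (H F : SimpleGraph V) [H.LocallyFinite]
    [F.LocallyFinite] (hle : F ≤ H) (Γ : Type) [Group Γ] [MulAction Γ V]
    (hH : ∀ (g : Γ) (x y : V), H.Adj (g • x) (g • y) ↔ H.Adj x y)
    (hF : ∀ (g : Γ) (x y : V), F.Adj (g • x) (g • y) ↔ F.Adj x y)
    (htrans : ∀ x y : V, ∃ g : Γ, g • x = y)
    (hunim : ∀ x y : V, F.Adj x y → (MulAction.orbit (MulAction.stabilizer Γ x) y).ncard =
      (MulAction.orbit (MulAction.stabilizer Γ y) x).ncard)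
    (o : V) (h a : ℝ)
    (hiso : ∀ K : Finset V, h * K.card ≤ ∑ x ∈ K, ((F.neighborFinset x \ K).card : ℝ))
    (ν : Sym2 V → Measure ℝ) [∀ e, IsProbabilityMeasure (ν e)]
    (hν : ∀ (g : Γ) (x y : V), ν s(g • x, g • y) = ν s(x, y))
    (hatom : ∀ e ∈ F.edgeSet, ∀ u, (ν e).real {u} ≤ a)
    (hah : a * F.degree o < h) :
    ∃ β0 : ℝ, ∀ β : ℝ, β0 ≤ β →
      ∀ (Ω : Type) [MeasurableSpace Ω] (P : Measure Ω) (J : Sym2 V → Ω → ℝ),
        (∀ e, Measurable (J e)) → iIndepFun J P → (∀ e, P.map (J e) = ν e) →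
        ∀ᵐ ω ∂P, ∃ μ μ', IsDLR β H (fun e => J e ω) μ ∧ IsDLR β H (fun e => J e ω) μ' ∧ μ ≠ μ' :=
  main2 hle hH hF htrans hunim o hiso ν hν hatom hah

end Pool.Agent.Results.MP_81d17b_pr.NonAmenable
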