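import Pool.Agent.P.MP_81d17b_pr.St.GFinal

namespace Pool.Agent.Results.MP_81d17b_pr.Stiffness2D

open MeasureTheory ProbabilityTheory Pool.Agent.P.MP_81d17b_pr.St

/-- Edwards-Anderson ground states on a box of the square lattice, centred Gaussian couplings:
the joint moment generating function of the ground state energies with the couplings reversed on
dual paths is bounded by that of a linear form in the couplings. -/
theorem result (M n : ℕ) (τ : ℤ × ℤ → Bool) (v : Edge M n → NNReal) (θ : Edge M n → ℝ)
    (o : Plaq M n) (Γ : Plaq M n → Finset (Edge M n))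
    (hΓ : ∀ p z, OddAt (Γ p) z ↔ ¬ (z = o ↔ z = p)) :
    ∫⁻ J, ENNReal.ofReal (Real.exp (∑ p, outflow θ p * ground τ (flipOn (Γ p) J)))
        ∂(Measure.pi fun e => gaussianReal 0 (v e)) ≤
      ENNReal.ofReal (Real.exp (2 * ∑ e, v e * θ e ^ 2)) :=
  all_FinalGauss M n τ v θ o Γ hΓ

end Pool.Agent.Results.MP_81d17b_pr.Stiffness2D
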