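import Pool.Agent.P.MP_81d17b_pr.To.Prob

namespace Pool.Agent.Results.MP_81d17b_pr.TorusStiffness

open MeasureTheory ProbabilityTheory Pool.Agent.P.MP_81d17b_pr.To

/-- Edwards-Anderson model on the torus `(Z/L)^2` with independent standard Gaussian couplings:
the ground state energies for the four periodic / antiperiodic boundary conditions differ by
`O(log L)`, with a Gaussian tail. -/
theorem result (L : ℕ) [NeZero L] (hL : 2 ≤ L) (t : ℝ) (ht : 0 ≤ t) :
    (Measure.pi fun _ : Bond L => gaussianReal 0 1)
        {J | ∃ c c', t < |ground (twist c J) - ground (twist c' J)|} ≤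
      ENNReal.ofReal (3 * L ^ 4 * Real.exp (-t ^ 2 / (200000 * Real.log L))) :=
  torus hL t ht

end Pool.Agent.Results.MP_81d17b_pr.TorusStiffness
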